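import Pool.Agent.Q189.SS.Basic
import Pool.Agent.Q189.SS.Minimal

/-!
# A system disjoint from all minimal systems whose generic orbit closures do not have dense
minimal points

`X` is the set of pairs `(c, y)` of 0-1 sequences such that `c_k = 1` implies that every window of
length `(k+2)^2` of `y` contains at most `k + 1` ones; the map is the identity in the first
coordinate and the shift in the second one.
-/

set_option autoImplicit false

open Set Filter Topology Pool.Agent.Q189.SS

namespace Pool.Agent.Results.MP_e6b6d5_an.SparseFibres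

section Defs

variable {Y : Type*} [TopologicalSpace Y]

/-- The forward orbit closure. -/
def orbitClosure (T : Y → Y) (x : Y) : Set Y := closure (range fun n : ℕ => T^[n] x)

/-- Minimal systems: no proper non-empty closed invariant subset. -/
def MinimalSystem (S : Y → Y) : Prop :=
  ∀ F : Set Y, IsClosed F → F.Nonempty → MapsTo S F F → F = univ

/-- Minimal points: the orbit closure has no proper non-empty closed invariant subset. -/
def MinimalPoint (T : Y → Y) (x : Y) : Prop :=
  ∀ F : Set Y, IsClosed F → F.Nonempty → MapsTo T F F → F ⊆ orbitClosure T x → F = orbitClosure T x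

/-- Joinings. -/
structure IsJoining {Z : Type*} [TopologicalSpace Z] (T : Y → Y) (S : Z → Z) (J : Set (Y × Z)) :
    Prop where
  closed : IsClosed J
  nonempty : J.Nonempty
  invariant : MapsTo (Prod.map T S) J J
  fst : Prod.fst '' J = univ
  snd : Prod.snd '' J = univ

/-- Disjointness from all minimal systems. -/
def DisjointFromAllMinimal (T : Y → Y) : Prop :=
  ∀ (Z : Type) [MetricSpace Z] [CompactSpace Z] [Nonempty Z] (S : Z → Z), Continuous S →
    Function.Surjective S → MinimalSystem S → ∀ J : Set (Y × Z), IsJoining T S J → J = univ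

/-- The subsystem generated by `x` has dense minimal points. -/
def DenseMinimalPoints (T : Y → Y) (x : Y) : Prop :=
  orbitClosure T x ⊆ closure {z | z ∈ orbitClosure T x ∧ MinimalPoint T z}

end Defs

/-- The number of ones in a window. -/
def cnt (y : ℕ → Bool) (n W : ℕ) : ℕ := ((Finset.range W).filter (fun i => y (n + i) = true)).card

/-- The space, as a set of pairs of sequences. -/
def XS : Set ((ℕ → Bool) × (ℕ → Bool)) :=
  {p | ∀ k : ℕ, p.1 k = true → ∀ n : ℕ, cnt p.2 n ((k + 2) ^ 2) ≤ k + 1}

theorem cnt_shift (y : ℕ → Bool) (n W : ℕ) : cnt (shift y) n W = cnt y (n + 1) W := by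
  unfold cnt shift
  congr 1
  apply Finset.filter_congr
  intro i _
  rw [show n + i + 1 = n + 1 + i by ring]

theorem cnt_continuous (n W : ℕ) : Continuous (fun y : ℕ → Bool => cnt y n W) := by
  unfold cnt
  simp only [Finset.card_filter]
  refine continuous_finsetSum _ fun i _ => ?_
  exact (continuous_of_discreteTopology (f := fun b : Bool => if b = true then 1 else 0)).comp
    (continuous_apply (n + i))

theorem isClosed_XS : IsClosed XS := by
  have h : XS = ⋂ k : ℕ, ⋂ n : ℕ, {p | p.1 k = true → cnt p.2 n ((k + 2) ^ 2) ≤ k + 1} := by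
    ext p
    simp only [mem_iInter]
    exact ⟨fun h k n hk => h k hk n, fun h k hk n => h k n hk⟩
  rw [h]
  refine isClosed_iInter fun k => isClosed_iInter fun n => ?_
  have hc : Continuous (fun p : (ℕ → Bool) × (ℕ → Bool) => (p.1 k, cnt p.2 n ((k + 2) ^ 2))) :=
    ((continuous_apply k).comp continuous_fst).prodMk ((cnt_continuous n _).comp continuous_snd)
  exact (isClosed_discrete {q : Bool × ℕ | q.1 = true → q.2 ≤ k + 1}).preimage hc

/-- The space. -/
abbrev X : Type := XS

instance : CompactSpace X := isCompact_iff_compactSpace.1 isClosed_XS.isCompact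

theorem mapsTo_XS : MapsTo (Prod.map id shift) XS XS := by
  intro p hp k hk n
  have := hp k hk (n + 1)
  rw [← cnt_shift] at this
  exact this

/-- The map. -/
def T : X → X := mapsTo_XS.restrict

theorem T_continuous : Continuous T := (continuous_id.prodMap shift_continuous).restrict mapsTo_XS

theorem T_iter_fst (n : ℕ) (p : X) : ((T^[n] p : X) : (ℕ → Bool) × (ℕ → Bool)).1 = p.1.1 := by
  induction n generalizing p with
  | zero => rfl
  | succ n ih => rw [Function.iterate_succ_apply, ih]; rfl

theorem T_iter_snd (n : ℕ) (p : X) (i : ℕ) :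
    ((T^[n] p : X) : (ℕ → Bool) × (ℕ → Bool)).2 i = p.1.2 (i + n) := by
  induction n generalizing p i with
  | zero => rfl
  | succ n ih =>
    rw [Function.iterate_succ_apply, ih]
    show p.1.2 (i + n + 1) = _
    rw [add_assoc]

theorem cnt_pad (y : ℕ → Bool) (n W : ℕ) :
    cnt (fun i => if i = 0 then false else y (i - 1)) n W ≤ cnt y (n - 1) W := by
  unfold cnt
  refine Finset.card_le_card_of_injOn (fun i => n + i - 1 - (n - 1)) ?_ ?_
  · intro i hi
    rw [Finset.mem_coe, Finset.mem_filter, Finset.mem_range] at hi ⊢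
    obtain ⟨h1, h2⟩ := hi
    have h3 : n + i ≠ 0 := by
      intro h; rw [h] at h2; simp at h2
    have h2' : y (n + i - 1) = true := by
      simpa only [if_neg h3] using h2
    show n + i - 1 - (n - 1) < W ∧ y (n - 1 + (n + i - 1 - (n - 1))) = true
    refine ⟨by omega, ?_⟩
    rw [show n - 1 + (n + i - 1 - (n - 1)) = n + i - 1 by omega]
    exact h2'
  · intro i hi j hj hij
    rw [Finset.mem_coe, Finset.mem_filter] at hi hj
    have h3 : n + i ≠ 0 := by
      intro h; have := hi.2; rw [h] at this; simp at this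
    have h4 : n + j ≠ 0 := by
      intro h; have := hj.2; rw [h] at this; simp at this
    simp only at hij
    omega

theorem T_surjective : Function.Surjective T := by
  intro p
  refine ⟨⟨(p.1.1, fun i => if i = 0 then false else p.1.2 (i - 1)), ?_⟩, ?_⟩
  · intro k hk n
    exact (cnt_pad _ _ _).trans (p.2 k hk (n - 1))
  · apply Subtype.ext
    refine Prod.ext rfl (funext fun i => ?_)
    show (if i + 1 = 0 then false else p.1.2 (i + 1 - 1)) = p.1.2 i
    rw [if_neg (by omega), Nat.add_sub_cancel]

/-- Open sets of `X` contain cylinders. -/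
theorem exists_cylX {U : Set X} (hU : IsOpen U) {p : X} (hp : p ∈ U) :
    ∃ L : ℕ, ∀ q : X, (∀ i < L, q.1.1 i = p.1.1 i) → (∀ i < L, q.1.2 i = p.1.2 i) → q ∈ U := by
  obtain ⟨V, hV, rfl⟩ := isOpen_induced_iff.1 hU
  obtain ⟨V1, V2, hV1, hV2, h1, h2, hVV⟩ := isOpen_prod_iff.1 hV p.1.1 p.1.2 hp
  obtain ⟨L1, hL1⟩ := exists_cyl hV1 h1
  obtain ⟨L2, hL2⟩ := exists_cyl hV2 h2
  exact ⟨L1 + L2, fun q hq1 hq2 => hVV ⟨hL1 _ fun i hi => hq1 i (by omega),
    hL2 _ fun i hi => hq2 i (by omega)⟩⟩

open Classical in
/-- The word `y_0 … y_{L-1}` written at all positions in `A`, zeros elsewhere. -/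
noncomputable def spread (y : ℕ → Bool) (L : ℕ) (A : Set ℕ) : ℕ → Bool :=
  fun i => if h : ∃ n ∈ A, n ≤ i ∧ i < n + L then y (i - h.choose) else false

theorem spread_at (y : ℕ → Bool) (L : ℕ) (A : Set ℕ) (g : ℕ) (hg : L ≤ g)
    (hA : ∀ n ∈ A, ∀ m ∈ A, n < m → n + g ≤ m) (n : ℕ) (hn : n ∈ A) (i : ℕ) (hi : i < L) :
    spread y L A (i + n) = y i := by
  unfold spread
  have h : ∃ n' ∈ A, n' ≤ i + n ∧ i + n < n' + L := ⟨n, hn, by omega, by omega⟩
  rw [dif_pos h]
  obtain ⟨h1, h2, h3⟩ := h.choose_spec
  have h4 : h.choose = n := by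
    rcases lt_trichotomy h.choose n with h' | h' | h'
    · have := hA _ h1 _ hn h'; omega
    · exact h'
    · have := hA _ hn _ h1 h'; omega
  rw [h4, Nat.add_sub_cancel]

theorem cnt_spread (y : ℕ → Bool) (L : ℕ) (A : Set ℕ) (g W : ℕ) (hg : L + W ≤ g)
    (hA : ∀ n ∈ A, ∀ m ∈ A, n < m → n + g ≤ m) (n K : ℕ) (hK : ∀ m, cnt y m W ≤ K) :
    cnt (spread y L A) n W ≤ K := by
  classical
  by_cases hne : ∃ i0 < W, spread y L A (n + i0) = true
  · obtain ⟨i0, hi0, h0⟩ := hne
    have key : ∀ i, spread y L A i = true → ∃ a ∈ A, a ≤ i ∧ i < a + L ∧ y (i - a) = true := by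
      intro i hi
      unfold spread at hi
      by_cases h : ∃ n ∈ A, n ≤ i ∧ i < n + L
      · rw [dif_pos h] at hi
        obtain ⟨h1, h2, h3⟩ := h.choose_spec
        exact ⟨_, h1, h2, h3, hi⟩
      · rw [dif_neg h] at hi
        exact absurd hi (by simp)
    obtain ⟨a, ha, ha1, ha2, -⟩ := key _ h0
    have hsame : ∀ i < W, spread y L A (n + i) = true → a ≤ n + i ∧ y (n + i - a) = true := by
      intro i hi h
      obtain ⟨a', ha', h1, h2, h3⟩ := key _ h
      have : a' = a := by
        rcases lt_trichotomy a' a with h' | h' | h'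
        · have := hA _ ha' _ ha h'; omega
        · exact h'
        · have := hA _ ha _ ha' h'; omega
      subst this
      exact ⟨h1, h3⟩
    refine le_trans ?_ (hK (n - a))
    unfold cnt
    refine Finset.card_le_card_of_injOn (fun i => n + i - a - (n - a)) ?_ ?_
    · intro i hi
      rw [Finset.mem_coe, Finset.mem_filter, Finset.mem_range] at hi ⊢
      obtain ⟨h1, h2⟩ := hsame i hi.1 hi.2
      have h3 := hi.1
      show n + i - a - (n - a) < W ∧ y (n - a + (n + i - a - (n - a))) = true
      refine ⟨by omega, ?_⟩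
      rw [show n - a + (n + i - a - (n - a)) = n + i - a by omega]
      exact h2
    · intro i hi j hj hij
      rw [Finset.mem_coe, Finset.mem_filter, Finset.mem_range] at hi hj
      have h1 := (hsame i hi.1 hi.2).1
      have h2 := (hsame j hj.1 hj.2).1
      simp only at hij
      omega
  · unfold cnt
    rw [Finset.card_eq_zero.2]
    · exact Nat.zero_le _
    · rw [Finset.filter_eq_empty_iff]
      intro i hi
      rw [Finset.mem_range] at hi
      exact fun h => hne ⟨i, hi, h⟩

/-- **The system is disjoint from all minimal systems.** -/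
theorem disjoint : DisjointFromAllMinimal T := by
  intro Z _ _ _ S hS _ hmin J hJ
  rw [← hJ.closed.closure_eq, ← dense_iff_closure_eq, dense_iff_inter_open]
  intro W hW ⟨w, hw⟩
  obtain ⟨U, V, hU, hV, hwU, hwV, hUV⟩ := isOpen_prod_iff.1 hW w.1 w.2 hw
  obtain ⟨L, hL⟩ := exists_cylX hU hwU
  set c := w.1.1.1 with hc
  set y := w.1.1.2 with hy
  have hXS := w.1.2
  obtain ⟨A, hA, hAV⟩ := sparse_cover hS hmin (L + (L + 2) ^ 2) (by positivity) V hV ⟨_, hwV⟩
  let q : X := ⟨(fun i => if i < L then c i else false, spread y L A), by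
    intro k hk n
    have hk' : k < L ∧ c k = true := by
      by_cases h : k < L
      · simp only [if_pos h] at hk
        exact ⟨h, hk⟩
      · simp only [if_neg h] at hk
        exact absurd hk (by simp)
    refine cnt_spread y L A (L + (L + 2) ^ 2) _ ?_ hA n (k + 1) fun m => hXS k hk'.2 m
    have : (k + 2) ^ 2 ≤ (L + 2) ^ 2 := Nat.pow_le_pow_left (by omega) 2
    omega⟩
  obtain ⟨⟨q', y0⟩, hqJ, hq'⟩ : q ∈ Prod.fst '' J := hJ.fst ▸ mem_univ q
  have hq'' : q' = q := hq'
  subst hq''
  obtain ⟨n, hn, hnV⟩ := hAV y0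
  have h1 : (Prod.map T S)^[n] (q, y0) ∈ J := hJ.invariant.iterate n hqJ
  rw [Prod.map_iterate] at h1
  refine ⟨(T^[n] q, S^[n] y0), hUV ⟨hL _ (fun i hi => ?_) (fun i hi => ?_), hnV⟩, h1⟩
  · rw [T_iter_fst]
    show (if i < L then c i else false) = c i
    rw [if_pos hi]
  · rw [T_iter_snd]
    exact spread_at y L A _ (by omega) hA n hn i hi

/-- Perturbation of a point to a point with infinite first coordinate and non-zero second
coordinate. -/
theorem perturb (p : X) (L : ℕ) : ∃ q : X, (∀ i < L, q.1.1 i = p.1.1 i) ∧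
    (∀ i < L, q.1.2 i = p.1.2 i) ∧ (∀ i ≥ L, q.1.1 i = true) ∧ ∃ i, q.1.2 i = true := by
  set Q := L + (L + 2) ^ 2 with hQ
  have hQL : L < Q := by
    have : 0 < (L + 2) ^ 2 := by positivity
    omega
  refine ⟨⟨(fun i => if i < L then p.1.1 i else true,
    fun i => if i < L then p.1.2 i else decide (i = Q)), ?_⟩, fun i hi => by simp [hi],
    fun i hi => by simp [hi], fun i hi => by simp [not_lt.2 hi], Q, by simp [not_lt.2 hQL.le]⟩
  intro k hk n
  by_cases hkL : k < L
  · simp only [if_pos hkL] at hk
    have hW : (k + 2) ^ 2 ≤ (L + 1) ^ 2 := Nat.pow_le_pow_left (by omega) 2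
    have hQ' : L + (L + 1) ^ 2 < Q := by
      rw [hQ]
      have : (L + 1) ^ 2 < (L + 2) ^ 2 := Nat.pow_lt_pow_left (by omega) (by norm_num)
      omega
    by_cases hn : Q < n + (k + 2) ^ 2
    · -- at most one
      have h1 : cnt (fun i => if i < L then p.1.2 i else decide (i = Q)) n ((k + 2) ^ 2) ≤ 1 := by
        unfold cnt
        rw [Finset.card_le_one]
        intro a ha b hb
        rw [Finset.mem_filter] at ha hb
        have key : ∀ a, (if n + a < L then p.1.2 (n + a) else decide (n + a = Q)) = true → n + a = Q := by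
          intro a ha
          rw [if_neg (by omega)] at ha
          simpa using ha
        have := key a ha.2
        have := key b hb.2
        omega
      exact h1.trans (by omega)
    · refine le_trans ?_ (p.2 k hk n)
      unfold cnt
      apply Finset.card_le_card
      intro i hi
      rw [Finset.mem_filter, Finset.mem_range] at hi ⊢
      refine ⟨hi.1, ?_⟩
      have h2 := hi.2
      by_cases h3 : n + i < L
      · simpa [h3] using h2
      · simp only [if_neg h3] at h2
        have : n + i = Q := by simpa using h2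
        omega
  · -- at most `L + 1` ones altogether
    have h1 : cnt (fun i => if i < L then p.1.2 i else decide (i = Q)) n ((k + 2) ^ 2) ≤ L + 1 := by
      unfold cnt
      calc _ ≤ (insert Q (Finset.range L)).card := by
            refine Finset.card_le_card_of_injOn (fun i => n + i) ?_ ?_
            · intro i hi
              rw [Finset.mem_coe, Finset.mem_filter] at hi
              rw [Finset.mem_coe, Finset.mem_insert, Finset.mem_range]
              have h2 := hi.2
              by_cases h3 : n + i < L
              · exact Or.inr h3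
              · simp only [if_neg h3] at h2
                exact Or.inl (by simpa using h2)
            · intro a _ b _ hab
              simp only at hab
              omega
        _ ≤ L + 1 := by
            refine (Finset.card_insert_le _ _).trans ?_
            rw [Finset.card_range]
    exact h1.trans (by omega)

/-- Long runs of zeros. -/
theorem zero_run (y : ℕ → Bool) (k : ℕ) (h : cnt y 0 ((k + 2) ^ 2) ≤ k + 1) :
    ∃ n : ℕ, ∀ i < k + 2, y (i + n) = false := by
  by_contra hcon
  push Not at hcon
  have h1 : ∀ j : ℕ, ∃ i < k + 2, y (i + j * (k + 2)) = true := by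
    intro j
    obtain ⟨i, hi, h⟩ := hcon (j * (k + 2))
    exact ⟨i, hi, by simpa using h⟩
  choose f hf hfy using h1
  have h2 : (Finset.range (k + 2)).card ≤ cnt y 0 ((k + 2) ^ 2) := by
    unfold cnt
    refine Finset.card_le_card_of_injOn (fun j => f j + j * (k + 2)) ?_ ?_
    · intro j hj
      rw [Finset.mem_coe, Finset.mem_range] at hj
      rw [Finset.mem_coe, Finset.mem_filter, Finset.mem_range]
      refine ⟨?_, by rw [zero_add]; exact hfy j⟩
      have h3 := hf j
      have h4 : (j + 1) * (k + 2) ≤ (k + 2) * (k + 2) := Nat.mul_le_mul_right _ hj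
      have h5 : (j + 1) * (k + 2) = j * (k + 2) + (k + 2) := by ring
      rw [sq]
      show f j + j * (k + 2) < (k + 2) * (k + 2)
      omega
    · intro a _ b _ hab
      simp only at hab
      have ha := hf a
      have hb := hf b
      rcases lt_trichotomy a b with h | h | h
      · have : (a + 1) * (k + 2) ≤ b * (k + 2) := Nat.mul_le_mul_right _ h
        have h5 : (a + 1) * (k + 2) = a * (k + 2) + (k + 2) := by ring
        omega
      · exact h
      · have : (b + 1) * (k + 2) ≤ a * (k + 2) := Nat.mul_le_mul_right _ h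
        have h5 : (b + 1) * (k + 2) = b * (k + 2) + (k + 2) := by ring
        omega
  rw [Finset.card_range] at h2
  omega

/-- Points with infinite first and non-zero second coordinate are bad. -/
theorem bad (p : X) (hinf : ∀ N : ℕ, ∃ k ≥ N, p.1.1 k = true) (hne : ∃ i, p.1.2 i = true) :
    ¬ DenseMinimalPoints T p := by
  intro h
  obtain ⟨i0, hi0⟩ := hne
  have hp : p ∈ orbitClosure T p := subset_closure ⟨0, rfl⟩
  have hc : Continuous (fun q : X => q.1.2 i0) :=
    (continuous_apply i0).comp (continuous_snd.comp continuous_subtype_val)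
  obtain ⟨z, hz1, hz2, hz3⟩ := mem_closure_iff.1 (h hp) {q : X | q.1.2 i0 = true}
    ((isOpen_discrete ({true} : Set Bool)).preimage hc) hi0
  -- the first coordinate is constant on the orbit closure
  have hfst : ∀ a : X, ∀ b ∈ orbitClosure T a, b.1.1 = a.1.1 := by
    intro a b hb
    have hcl : IsClosed {q : X | q.1.1 = a.1.1} :=
      isClosed_eq (continuous_fst.comp continuous_subtype_val) continuous_const
    refine (closure_minimal ?_ hcl) hb
    rintro _ ⟨n, rfl⟩
    exact T_iter_fst n a
  have hzc : z.1.1 = p.1.1 := hfst p z hz2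
  let o : X := ⟨(z.1.1, fun _ => false), by
    intro k _ n
    unfold cnt
    simp⟩
  have ho : o ∈ orbitClosure T z := by
    refine mem_closure_iff.2 fun U hU hoU => ?_
    obtain ⟨L, hL⟩ := exists_cylX hU hoU
    obtain ⟨k, hk, hk2⟩ := hinf L
    obtain ⟨n, hn⟩ := zero_run z.1.2 k (z.2 k (by rw [hzc]; exact hk2) 0)
    refine ⟨T^[n] z, hL _ (fun i _ => by rw [T_iter_fst]) (fun i hi => ?_), n, rfl⟩
    rw [T_iter_snd]
    exact hn i (by omega)
  have hT : T o = o := by
    apply Subtype.ext
    rfl
  have h4 := hz3 {o} isClosed_singleton (singleton_nonempty o) (by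
    intro q hq
    rw [mem_singleton_iff] at hq ⊢
    rw [hq, hT]) (by
    intro q hq
    rw [mem_singleton_iff.1 hq]
    exact ho)
  have h5 : z ∈ orbitClosure T z := subset_closure ⟨0, rfl⟩
  rw [← h4, mem_singleton_iff] at h5
  have h6 : z.1.2 i0 = true := hz1
  rw [h5] at h6
  exact absurd h6 (by simp [o])

/-- **Negative answer to Q1.** -/
theorem result : ∃ (X : Type) (_ : MetricSpace X) (_ : CompactSpace X) (_ : Nonempty X)
    (T : X → X), Continuous T ∧ Function.Surjective T ∧ DisjointFromAllMinimal T ∧
    ¬ ∃ Ω : Set X, IsGδ Ω ∧ Dense Ω ∧ ∀ x ∈ Ω, DenseMinimalPoints T x := by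
  let _ : MetricSpace X := TopologicalSpace.metrizableSpaceMetric X
  have hne : Nonempty X := ⟨⟨(fun _ => false, fun _ => false), fun k hk => by simp at hk⟩⟩
  refine ⟨X, inferInstance, inferInstance, hne, T, T_continuous, T_surjective, disjoint, ?_⟩
  rintro ⟨Ω, hG, hd, hΩ⟩
  let B : ℕ → Set X := fun N => {p | (∃ k ≥ N, p.1.1 k = true) ∧ ∃ i, p.1.2 i = true}
  have hBo : ∀ N, IsOpen (B N) := by
    intro N
    have h1 : IsOpen {p : X | ∃ k ≥ N, p.1.1 k = true} := by
      have : {p : X | ∃ k ≥ N, p.1.1 k = true} = ⋃ k ≥ N, {p : X | p.1.1 k = true} := by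
        ext p; simp
      rw [this]
      refine isOpen_biUnion fun k _ => ?_
      have hc : Continuous (fun q : X => q.1.1 k) :=
        (continuous_apply k).comp (continuous_fst.comp continuous_subtype_val)
      exact (isOpen_discrete ({true} : Set Bool)).preimage hc
    have h2 : IsOpen {p : X | ∃ i, p.1.2 i = true} := by
      have : {p : X | ∃ i, p.1.2 i = true} = ⋃ i, {p : X | p.1.2 i = true} := by
        ext p; simp
      rw [this]
      refine isOpen_iUnion fun i => ?_
      have hc : Continuous (fun q : X => q.1.2 i) :=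
        (continuous_apply i).comp (continuous_snd.comp continuous_subtype_val)
      exact (isOpen_discrete ({true} : Set Bool)).preimage hc
    exact h1.inter h2
  have hBd : ∀ N, Dense (B N) := by
    intro N
    rw [dense_iff_inter_open]
    intro U hU ⟨p, hp⟩
    obtain ⟨L, hL⟩ := exists_cylX hU hp
    obtain ⟨q, h1, h2, h3, h4⟩ := perturb p L
    exact ⟨q, hL q h1 h2, ⟨L + N, by omega, h3 _ (by omega)⟩, h4⟩
  have hBG : IsGδ (⋂ N, B N) := IsGδ.iInter_of_isOpen hBo
  have hBd' : Dense (⋂ N, B N) := dense_iInter_of_isOpen_nat hBo hBd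
  have hne : Nonempty X := ⟨⟨(fun _ => false, fun _ => false), fun k hk => by simp at hk⟩⟩
  obtain ⟨x, hx1, hx2⟩ := (hd.inter_of_Gδ hG hBG hBd').nonempty
  rw [mem_iInter] at hx2
  exact bad x (fun N => (hx2 N).1) (hx2 0).2 (hΩ x hx1)

end Pool.Agent.Results.MP_e6b6d5_an.SparseFibres
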